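import Pool.Agent.Helper61.NW.Goals2

/-!
# NW-DIH: the dihedral type gives line systems
-/

set_option autoImplicit false

namespace Pool.Agent.Helper34.NW

open Pool.Agent.Helper52.Wq2 Pool.Agent.Helper61.NW
open scoped Nat

universe u

variable {Γ : Type u} [Group Γ] {ε : Γ →* ℤˣ} {h : Γ → ℤ} {S : Set Γ}

theorem h_one (D : Dh ε h) : h 1 = 0 := by
  have := D.coc 1 1
  rw [mul_one, map_one] at this
  simp only [Units.val_one, one_mul] at this
  omega

theorem h_inv (D : Dh ε h) (g : Γ) : h g⁻¹ = - ((ε g : ℤ) * h g) := by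
  have := D.coc g g⁻¹
  rw [mul_inv_cancel, h_one D] at this
  rcases Int.units_eq_one_or (ε g) with e | e <;> rw [e] at this ⊢ <;>
    simp only [Units.val_one, Units.val_neg] at this ⊢ <;> omega

/-- The finite kernel. -/
def K (D : Dh ε h) : Subgroup Γ where
  carrier := {g | ε g = 1 ∧ h g = 0}
  one_mem' := ⟨map_one ε, h_one D⟩
  mul_mem' := by
    rintro a b ⟨ha, ha'⟩ ⟨hb, hb'⟩
    refine ⟨by rw [map_mul, ha, hb, mul_one], ?_⟩
    rw [D.coc, ha', hb', mul_zero, add_zero]
  inv_mem' := by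
    rintro a ⟨ha, ha'⟩
    refine ⟨by rw [map_inv, ha, inv_one], ?_⟩
    rw [h_inv D, ha', mul_zero, neg_zero]

theorem mem_K (D : Dh ε h) {g : Γ} : g ∈ K D ↔ ε g = 1 ∧ h g = 0 := Iff.rfl

theorem K_normal (D : Dh ε h) : (K D).Normal := by
  refine ⟨fun k hk g => ?_⟩
  rw [mem_K] at hk ⊢
  refine ⟨by rw [map_mul, map_mul, hk.1, mul_one, map_inv, mul_inv_cancel], ?_⟩
  rw [D.coc, D.coc, h_inv D, map_mul, hk.1, hk.2, mul_one]
  rcases Int.units_eq_one_or (ε g) with e | e <;> rw [e] <;>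
    simp only [Units.val_one, Units.val_neg] <;> ring

theorem K_finite (D : Dh ε h) : Finite (K D) := D.ker.to_subtype

theorem h_pow (D : Dh ε h) {y : Γ} (hy : ε y = 1) (j : ℕ) : h (y ^ j) = j * h y := by
  induction j with
  | zero => rw [pow_zero, h_one D]; simp
  | succ j ih =>
    rw [pow_succ, D.coc, ih, map_pow, hy, one_pow]
    push_cast
    ring

theorem comm_fact (D : Dh ε h) (N : ℕ) (hN : Nat.card (K D) ≤ N) (y : Γ) {k : Γ} (hk : k ∈ K D) :
    Commute (y ^ (N !)) k := by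
  have _ := K_normal D
  have _ := K_finite D
  have h1 : (MulAut.toPerm (K D) (MulAut.conjNormal y)) ^ (N !) = 1 := by
    obtain ⟨c, hc⟩ := Nat.factorial_dvd_factorial hN
    rw [hc, pow_mul, ← Nat.card_perm, pow_card_eq_one', one_pow]
  rw [← map_pow, ← map_pow] at h1
  have h2 := congrArg (fun σ : Equiv.Perm (K D) => ((σ ⟨k, hk⟩ : K D) : Γ)) h1
  have h3 : y ^ (N !) * k * (y ^ (N !))⁻¹ = k := h2
  rw [mul_inv_eq_iff_eq_mul] at h3
  exact h3

/-- Powers of elements of the same height agree. -/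
theorem pow_eq (D : Dh ε h) (N : ℕ) (hN : Nat.card (K D) ≤ N) {y y' : Γ} (hy : ε y = 1)
    (hy' : ε y' = 1) (hh : h y = h y') :
    y ^ (N ! * Nat.card (K D)) = y' ^ (N ! * Nat.card (K D)) := by
  have _ := K_finite D
  have hk : y ^ (N !) * (y' ^ (N !))⁻¹ ∈ K D := by
    rw [mem_K]
    refine ⟨by rw [map_mul, map_inv, map_pow, map_pow, hy, hy']; simp, ?_⟩
    rw [D.coc, h_inv D, h_pow D hy, h_pow D hy', map_pow, map_pow, hy, hy', hh]
    simp
  have h1 : y ^ (N !) = (y ^ (N !) * (y' ^ (N !))⁻¹) * y' ^ (N !) := by group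
  have h2 := (comm_fact D N hN y' hk).symm
  have h3 : (y ^ (N !) * (y' ^ (N !))⁻¹) ^ Nat.card (K D) = 1 := by
    have := pow_card_eq_one' (x := (⟨_, hk⟩ : K D))
    exact congrArg Subtype.val this
  rw [pow_mul, pow_mul, h1, h2.mul_pow, h3, one_mul]

/-- The height. -/
def X (ε : Γ →* ℤˣ) (h : Γ → ℤ) (y₀ : ℤ) (g : Γ) : ℤ := 4 * h g + (ε g : ℤ) * y₀

theorem X_mul (D : Dh ε h) (y₀ : ℤ) (g t : Γ) :
    X ε h y₀ (g * t) = X ε h y₀ g + (ε g : ℤ) * (4 * h t + ((ε t : ℤ) - 1) * y₀) := by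
  unfold X
  rw [D.coc, map_mul]
  push_cast
  ring

/-- The data of a system of lines. -/
structure Dt (ε : Γ →* ℤˣ) (h : Γ → ℤ) (S : Set Γ) (y₀ H : ℤ) (η : ℤˣ) (a : ℤˣ → Γ) : Prop where
  pos : 0 < H
  mem : ∀ e, a e ∈ S
  up : ∀ g, X ε h y₀ (g * a (ε g)) = X ε h y₀ g + H
  sgn : ∀ e, ε (a e) = η
  max : ∀ g, ∀ t ∈ S, |X ε h y₀ (g * t) - X ε h y₀ g| ≤ H
  inv : η = 1 → a (-1) = (a 1)⁻¹

theorem exists_data (D : Dh ε h) (hS : IsGen S) (hf : S.Finite) :
    ∃ y₀ H η a, Dt ε h S y₀ H η a := by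
  classical
  have href : ({t | t ∈ S ∧ ε t = -1} : Set Γ).Nonempty := by
    by_contra hcon
    obtain ⟨u, hu⟩ := D.neg
    have h1 : S ⊆ (ε.ker : Set Γ) := by
      intro t ht
      rcases Int.units_eq_one_or (ε t) with e | e
      · exact e
      · exact absurd ⟨t, ht, e⟩ hcon
    have h2 : Subgroup.closure S ≤ ε.ker := (Subgroup.closure_le _).2 h1
    rw [hS.1] at h2
    have h3 : ε u = 1 := h2 (Subgroup.mem_top u)
    rw [hu] at h3
    exact absurd h3 (by decide)
  have hfr : ({t | t ∈ S ∧ ε t = -1} : Set Γ).Finite := hf.subset fun t ht => ht.1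
  obtain ⟨t, ⟨htS, htε⟩, htm⟩ := Set.exists_max_image _ h hfr href
  obtain ⟨r, ⟨hrS, hrε⟩, hrm⟩ := Set.exists_min_image _ h hfr href
  set y₀ : ℤ := h t + h r with hy₀
  let δ : Γ → ℤ := fun x => 4 * h x + ((ε x : ℤ) - 1) * y₀
  obtain ⟨s, hsS, hsm⟩ := Set.exists_max_image S (fun x => |δ x|) hf ⟨t, htS⟩
  have hX : ∀ g x, X ε h y₀ (g * x) = X ε h y₀ g + (ε g : ℤ) * δ x := fun g x => X_mul D y₀ g x
  have hpos : 0 < |δ s| := by
    by_contra hcon
    have h0 : ∀ x ∈ S, δ x = 0 := by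
      intro x hx
      have := hsm x hx
      exact abs_nonpos_iff.1 (this.trans (not_lt.1 hcon))
    have hall : ∀ x, X ε h y₀ x = X ε h y₀ 1 := by
      intro x
      have hx : x ∈ Subgroup.closure S := by rw [hS.1]; trivial
      induction hx using Subgroup.closure_induction_right with
      | one => rfl
      | mul_right x _ s hs ih => rw [hX, ih, h0 s hs, mul_zero, add_zero]
      | mul_inv_cancel x _ s hs ih => rw [hX, ih, h0 _ (hS.2.1 _ hs), mul_zero, add_zero]
    obtain ⟨g, hg, hg'⟩ := D.unb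
    have := hall g
    unfold X at this
    rw [hg, map_one, h_one D] at this
    omega
  have hmax : ∀ g, ∀ x ∈ S, |X ε h y₀ (g * x) - X ε h y₀ g| ≤ |δ s| := by
    intro g x hx
    rw [hX, add_sub_cancel_left]
    have := hsm x hx
    rcases Int.units_eq_one_or (ε g) with e | e <;> rw [e] <;>
      simp only [Units.val_one, Units.val_neg, one_mul, neg_mul, abs_neg] <;> exact this
  rcases Int.units_eq_one_or (ε s) with hs | hs
  · -- case 1
    have hδ : δ s = 4 * h s := by
      simp only [δ, hs, Units.val_one, sub_self, zero_mul, add_zero]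
    obtain ⟨s', hs'S, hs', hs'δ⟩ : ∃ s' ∈ S, ε s' = 1 ∧ δ s' = |δ s| := by
      rcases le_total 0 (δ s) with h0 | h0
      · exact ⟨s, hsS, hs, (abs_of_nonneg h0).symm⟩
      · refine ⟨s⁻¹, hS.2.1 _ hsS, by rw [map_inv, hs, inv_one], ?_⟩
        rw [abs_of_nonpos h0, hδ]
        simp only [δ, map_inv, hs, inv_one, Units.val_one, sub_self, zero_mul, add_zero, h_inv D]
        ring
    have hδ' : δ s' = 4 * h s' := by
      simp only [δ, hs', Units.val_one, sub_self, zero_mul, add_zero]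
    have hδi : δ s'⁻¹ = - δ s' := by
      rw [hδ']
      simp only [δ, map_inv, hs', inv_one, Units.val_one, sub_self, zero_mul, add_zero, h_inv D]
      ring
    refine ⟨y₀, |δ s|, 1, fun e => if e = 1 then s' else s'⁻¹, hpos, ?_, ?_, ?_, hmax, ?_⟩
    · intro e
      by_cases he : e = 1
      · simp only [he, if_true]; exact hs'S
      · simp only [he, if_false]; exact hS.2.1 _ hs'S
    · intro g
      rw [hX]
      rcases Int.units_eq_one_or (ε g) with e | e
      · rw [e]; simp only [if_true, Units.val_one, one_mul]; rw [hs'δ]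
      · rw [e]
        have hne : (-1 : ℤˣ) ≠ 1 := by decide
        simp only [hne, if_false, Units.val_neg, Units.val_one]
        rw [hδi, hs'δ]
        ring
    · intro e
      by_cases he : e = 1
      · simp only [he, if_true]; exact hs'
      · simp only [he, if_false]; rw [map_inv, hs', inv_one]
    · intro _
      have hne : (-1 : ℤˣ) ≠ 1 := by decide
      simp only [hne, if_false, if_true]
  · -- case 2
    have hδt : δ t = 2 * (h t - h r) := by
      simp only [δ, htε, Units.val_neg, Units.val_one, hy₀]; ring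
    have hδr : δ r = - (2 * (h t - h r)) := by
      simp only [δ, hrε, Units.val_neg, Units.val_one, hy₀]; ring
    have hδs : δ s = 4 * h s - 2 * (h t + h r) := by
      simp only [δ, hs, Units.val_neg, Units.val_one, hy₀]; ring
    have h1 : h s ≤ h t := htm s ⟨hsS, hs⟩
    have h2 : h r ≤ h s := hrm s ⟨hsS, hs⟩
    have h3 : |δ s| = 2 * (h t - h r) := by
      apply le_antisymm
      · rw [hδs, abs_le]; constructor <;> linarith
      · have h4 : |δ t| ≤ |δ s| := hsm t htS
        rw [hδt] at h4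
        exact (le_abs_self _).trans h4
    refine ⟨y₀, |δ s|, -1, fun e => if e = 1 then t else r, hpos, ?_, ?_, ?_, hmax, ?_⟩
    · intro e
      by_cases he : e = 1
      · simp only [he, if_true]; exact htS
      · simp only [he, if_false]; exact hrS
    · intro g
      rw [hX]
      rcases Int.units_eq_one_or (ε g) with e | e
      · rw [e]; simp only [if_true, Units.val_one, one_mul]; rw [h3, hδt]
      · rw [e]
        have hne : (-1 : ℤˣ) ≠ 1 := by decide
        simp only [hne, if_false, Units.val_neg, Units.val_one]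
        rw [h3, hδr]
        ring
    · intro e
      by_cases he : e = 1
      · simp only [he, if_true]; exact htε
      · simp only [he, if_false]; exact hrε
    · intro hcon
      exact absurd hcon (by decide)

variable {y₀ H : ℤ} {η : ℤˣ} {a : ℤˣ → Γ}

theorem uu (e : ℤˣ) : e * e = 1 := Int.units_mul_self e

/-- The step along the lines. -/
def ph (T : Dt ε h S y₀ H η a) : Equiv.Perm Γ where
  toFun g := g * a (ε g)
  invFun g := g * (a (η * ε g))⁻¹
  left_inv := by
    intro g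
    have : η * ε (g * a (ε g)) = ε g := by
      rw [map_mul, T.sgn, mul_comm (ε g) η, ← mul_assoc, uu, one_mul]
    simp only [this, mul_inv_cancel_right]
  right_inv := by
    intro g
    have : ε (g * (a (η * ε g))⁻¹) = η * ε g := by
      rw [map_mul, map_inv, T.sgn, Int.units_inv_eq_self, mul_comm]
    simp only [this, inv_mul_cancel_right]

theorem ph_apply (T : Dt ε h S y₀ H η a) (g : Γ) : ph T g = g * a (ε g) := rfl

theorem ph_add (T : Dt ε h S y₀ H η a) (x y : ℤ) (g : Γ) :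
    (ph T ^ (x + y)) g = (ph T ^ x) ((ph T ^ y) g) := by rw [zpow_add]; rfl

theorem ph_succ (T : Dt ε h S y₀ H η a) (x : ℤ) (g : Γ) :
    (ph T ^ (x + 1)) g = ph T ((ph T ^ x) g) := by
  rw [add_comm, ph_add, zpow_one]

theorem X_nat (T : Dt ε h S y₀ H η a) (k : ℕ) (g : Γ) :
    X ε h y₀ ((ph T ^ (k : ℤ)) g) = X ε h y₀ g + k * H := by
  induction k with
  | zero => simp
  | succ k ih =>
    rw [Nat.cast_succ, ph_succ, ph_apply, T.up, ih]
    ring

theorem X_zpow (T : Dt ε h S y₀ H η a) (k : ℤ) (g : Γ) :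
    X ε h y₀ ((ph T ^ k) g) = X ε h y₀ g + k * H := by
  rcases Int.eq_nat_or_neg k with ⟨k, rfl | rfl⟩
  · exact X_nat T k g
  · have h1 := X_nat T k ((ph T ^ (-(k : ℤ))) g)
    rw [← ph_add, add_neg_cancel, zpow_zero] at h1
    have h2 : X ε h y₀ g = X ε h y₀ ((ph T ^ (-(k : ℤ))) g) + k * H := h1
    rw [h2]
    ring

/-- Left multiplication by `x` preserves or reverses the lines. -/
def Ok (T : Dt ε h S y₀ H η a) (x : Γ) (e : ℤ) : Prop :=
  (e = 1 ∨ e = -1) ∧ ∀ g, x * ph T g = (ph T ^ e) (x * g)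

theorem Ok.zpow {T : Dt ε h S y₀ H η a} {x : Γ} {e : ℤ} (hx : Ok T x e) (k : ℤ) (g : Γ) :
    x * (ph T ^ k) g = (ph T ^ (e * k)) (x * g) := by
  have nat : ∀ (k : ℕ) (g : Γ), x * (ph T ^ (k : ℤ)) g = (ph T ^ (e * k)) (x * g) := by
    intro k
    induction k with
    | zero => intro g; simp
    | succ k ih =>
      intro g
      rw [Nat.cast_succ, ph_succ, hx.2, ih, ← ph_add]
      congr 2
      ring
  rcases Int.eq_nat_or_neg k with ⟨k, rfl | rfl⟩
  · exact nat k g
  · have h1 := nat k ((ph T ^ (-(k : ℤ))) g)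
    rw [← ph_add, add_neg_cancel, zpow_zero] at h1
    have h2 : x * g = (ph T ^ (e * k)) (x * (ph T ^ (-(k : ℤ))) g) := h1
    rw [h2, ← ph_add]
    have h3 : e * -(k : ℤ) + e * k = 0 := by ring
    rw [h3, zpow_zero]
    rfl

theorem ok_one (T : Dt ε h S y₀ H η a) {x : Γ} (hx : ε x = 1) : Ok T x 1 := by
  refine ⟨Or.inl rfl, fun g => ?_⟩
  rw [zpow_one, ph_apply, ph_apply, map_mul, hx, one_mul, mul_assoc]

theorem ok_case1 (T : Dt ε h S y₀ H η a) (hη : η = 1) (x : Γ) : ∃ e, Ok T x e := by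
  rcases Int.units_eq_one_or (ε x) with hx | hx
  · exact ⟨1, ok_one T hx⟩
  · refine ⟨-1, Or.inr rfl, fun g => ?_⟩
    have h1 := T.inv hη
    rw [ph_apply, zpow_neg, zpow_one]
    show x * (g * a (ε g)) = x * g * (a (η * ε (x * g)))⁻¹
    rw [hη, one_mul, map_mul, hx]
    rcases Int.units_eq_one_or (ε g) with e | e
    · rw [e, mul_one, h1, inv_inv, mul_assoc]
    · rw [e, h1, uu, mul_assoc]

theorem sgn_zpow_nat (T : Dt ε h S y₀ H η a) (g : Γ) : ε (ph T g) = ε g * η := by
  rw [ph_apply, map_mul, T.sgn]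

/-- Transitivity. -/
theorem ok_trans (T : Dt ε h S y₀ H η a) (g g' : Γ) :
    ∃ x e, Ok T x e ∧ ∃ k : ℤ, x * g = (ph T ^ k) g' := by
  rcases Int.units_eq_one_or η with hη | hη
  · obtain ⟨e, he⟩ := ok_case1 T hη (g' * g⁻¹)
    exact ⟨_, e, he, 0, by rw [zpow_zero]; simp⟩
  · by_cases hgg : ε g = ε g'
    · refine ⟨g' * g⁻¹, 1, ok_one T ?_, 0, by rw [zpow_zero]; simp⟩
      rw [map_mul, map_inv, hgg, mul_inv_cancel]
    · refine ⟨ph T g' * g⁻¹, 1, ok_one T ?_, 1, by rw [zpow_one]; simp⟩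
      rw [map_mul, map_inv, sgn_zpow_nat, hη]
      rcases Int.units_eq_one_or (ε g) with e | e <;> rcases Int.units_eq_one_or (ε g') with e' | e'
      · exact absurd (e.trans e'.symm) hgg
      · rw [e, e']; decide
      · rw [e, e']; decide
      · exact absurd (e.trans e'.symm) hgg

/-- Two steps. -/
theorem two_step (D : Dh ε h) (T : Dt ε h S y₀ H η a) (g : Γ) :
    ∃ d, ε d = 1 ∧ 4 * ((ε g : ℤ) * h d) = 2 * H ∧ ∀ k : ℕ, (ph T ^ ((2 * k : ℕ) : ℤ)) g = g * d ^ k := by
  refine ⟨a (ε g) * a (ε g * η), ?_, ?_, ?_⟩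
  · rw [map_mul, T.sgn, T.sgn, uu]
  · have h1 := T.up g
    have h2 := T.up (g * a (ε g))
    rw [map_mul, T.sgn, h1] at h2
    rw [X_mul D, X_mul D, map_mul, T.sgn, T.sgn] at h2
    rw [D.coc, T.sgn]
    push_cast at h2
    rcases Int.units_eq_one_or (ε g) with e | e <;> rcases Int.units_eq_one_or η with e' | e' <;>
      rw [e, e'] at h2 ⊢ <;>
      simp only [Units.val_one, Units.val_neg, one_mul, neg_mul, mul_one, mul_neg, neg_neg] at h2 ⊢ <;>
      linarith
  · intro k
    have hd : ε (a (ε g) * a (ε g * η)) = 1 := by rw [map_mul, T.sgn, T.sgn, uu]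
    induction k with
    | zero => simp
    | succ k ih =>
      have h1 : ((2 * (k + 1) : ℕ) : ℤ) = (2 * k : ℕ) + 1 + 1 := by push_cast; ring
      rw [h1, ph_succ, ph_succ, ih, ph_apply, ph_apply]
      have h2 : ε (g * (a (ε g) * a (ε g * η)) ^ k) = ε g := by
        rw [map_mul, map_pow, hd, one_pow, mul_one]
      rw [h2, map_mul, h2, T.sgn, pow_succ]
      simp only [mul_assoc]

/-- The period. -/
theorem period (D : Dh ε h) (T : Dt ε h S y₀ H η a) (N : ℕ) (hN : Nat.card (K D) ≤ N) :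
    ∃ c : Γ, ∀ g, c * g = (ph T ^ ((2 * (N ! * Nat.card (K D)) : ℕ) : ℤ)) g := by
  obtain ⟨y, hy, hy', -⟩ := two_step D T 1
  refine ⟨y ^ (N ! * Nat.card (K D)), fun g => ?_⟩
  obtain ⟨d, hd, hd', hd2⟩ := two_step D T g
  have h1 : ε (g * d * g⁻¹) = 1 := by rw [map_mul, map_mul, hd, map_inv, mul_one, mul_inv_cancel]
  have h2 : h y = h (g * d * g⁻¹) := by
    rw [D.coc, D.coc, h_inv D, map_mul, hd, mul_one]
    rw [map_one] at hy'
    rcases Int.units_eq_one_or (ε g) with e | e <;> rw [e] at hd' ⊢ <;>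
      simp only [Units.val_one, Units.val_neg, one_mul, neg_mul] at hy' hd' ⊢ <;> linarith
  have h3 := pow_eq D N hN hy h1 h2
  rw [hd2, h3, conj_pow]
  group

theorem fin_T (D : Dh ε h) (y₀ H : ℤ) : {g : Γ | 0 ≤ X ε h y₀ g ∧ X ε h y₀ g < H}.Finite := by
  have h0 : {g : Γ | 0 ≤ X ε h y₀ g ∧ X ε h y₀ g < H} ⊆
      ⋃ p ∈ ((Set.univ : Set ℤˣ) ×ˢ Set.Icc (-(|H| + |y₀|)) (|H| + |y₀|)),
        {g : Γ | ε g = p.1 ∧ h g = p.2} := by
    rintro g ⟨h1, h2⟩
    refine Set.mem_biUnion (x := (ε g, h g)) ⟨Set.mem_univ _, ?_, ?_⟩ ⟨rfl, rfl⟩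
    · unfold X at h1 h2
      have h3 := neg_abs_le y₀
      have h4 := le_abs_self y₀
      have h5 := le_abs_self H
      show -(|H| + |y₀|) ≤ h g
      rcases Int.units_eq_one_or (ε g) with e | e <;> rw [e] at h1 h2 <;>
        simp only [Units.val_one, Units.val_neg, one_mul, neg_mul] at h1 h2 <;> omega
    · unfold X at h1 h2
      have h3 := neg_abs_le y₀
      have h4 := le_abs_self y₀
      have h5 := le_abs_self H
      show h g ≤ |H| + |y₀|
      rcases Int.units_eq_one_or (ε g) with e | e <;> rw [e] at h1 h2 <;>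
        simp only [Units.val_one, Units.val_neg, one_mul, neg_mul] at h1 h2 <;> omega
  refine Set.Finite.subset (Set.Finite.biUnion (Set.toFinite _) ?_) h0
  rintro ⟨e, x⟩ -
  by_cases hne : ({g : Γ | ε g = e ∧ h g = x}).Nonempty
  · obtain ⟨g₀, hg₀, hg₀'⟩ := hne
    refine (D.ker.image (fun k => g₀ * k)).subset ?_
    rintro g ⟨hg, hg'⟩
    refine ⟨g₀⁻¹ * g, ⟨?_, ?_⟩, by simp⟩
    · rw [map_mul, map_inv, hg₀, hg, inv_mul_cancel]
    · rw [D.coc, h_inv D, hg₀', hg', map_inv, Int.units_inv_eq_self]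
      ring
  · rw [Set.not_nonempty_iff_eq_empty.1 hne]
    exact Set.finite_empty

theorem dih : DihStmt.{u} := by
  intro Γ _ ε h S D hS hf
  classical
  obtain ⟨y₀, H, η, a, T⟩ := exists_data D hS hf
  have hfT := fin_T D y₀ H
  let TT : Set Γ := {g : Γ | 0 ≤ X ε h y₀ g ∧ X ε h y₀ g < H}
  have hfin : Finite TT := hfT.to_subtype
  have hX0 : ∀ g, (ph T ^ (-(X ε h y₀ g / H))) g ∈ TT := by
    intro g
    have h1 := X_zpow T (-(X ε h y₀ g / H)) g
    have h2 := Int.emod_add_mul_ediv (X ε h y₀ g) H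
    have h3 := Int.emod_nonneg (X ε h y₀ g) T.pos.ne'
    have h4 := Int.emod_lt_of_pos (X ε h y₀ g) T.pos
    have h5 : X ε h y₀ ((ph T ^ (-(X ε h y₀ g / H))) g) = X ε h y₀ g % H := by
      rw [h1]; linarith
    exact ⟨by rw [h5]; exact h3, by rw [h5]; exact h4⟩
  let n : ℕ := Nat.card TT
  have hne : Nonempty TT := ⟨⟨_, hX0 1⟩⟩
  have hn : 0 < n := Nat.card_pos
  have hKn : Nat.card (K D) ≤ n := by
    obtain ⟨t₀, ht₀⟩ := hne
    refine Nat.card_le_card_of_injective (fun k : K D => (⟨t₀ * k, ?_⟩ : TT)) ?_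
    · have h1 : X ε h y₀ (t₀ * k) = X ε h y₀ t₀ := by
        obtain ⟨k, hk, hk'⟩ := k
        unfold X
        rw [D.coc, map_mul]
        simp only [hk, hk', mul_one, mul_zero, add_zero]
      show 0 ≤ X ε h y₀ (t₀ * k) ∧ X ε h y₀ (t₀ * k) < H
      rw [h1]
      exact ht₀
    · intro k k' hkk
      have := congrArg Subtype.val hkk
      exact Subtype.ext (mul_left_cancel this)
  have hK0 : 0 < Nat.card (K D) := by
    have _ := K_finite D
    exact Nat.card_pos
  let b : Fin n ≃ TT := (Finite.equivFinOfCardEq rfl).symm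
  let v : ℤ × Fin n → Γ := fun p => (ph T ^ p.1) (b p.2)
  have hXv : ∀ p, X ε h y₀ (v p) / H = p.1 := by
    intro p
    show X ε h y₀ ((ph T ^ p.1) (b p.2)) / H = p.1
    rw [X_zpow, Int.add_mul_ediv_right _ _ T.pos.ne', Int.ediv_eq_zero_of_lt (b p.2).2.1 (b p.2).2.2,
      zero_add]
  have hbij : Function.Bijective v := by
    constructor
    · rintro ⟨x, i⟩ ⟨y, j⟩ hxy
      have h1 : x = y := by
        have h2 := hXv (x, i)
        rw [hxy, hXv (y, j)] at h2
        exact h2.symm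
      subst h1
      have h3 : ((b i : TT) : Γ) = b j := (ph T ^ x).injective hxy
      rw [b.injective (Subtype.ext h3)]
    · intro g
      refine ⟨(X ε h y₀ g / H, b.symm ⟨_, hX0 g⟩), ?_⟩
      show (ph T ^ (X ε h y₀ g / H)) (b (b.symm ⟨_, hX0 g⟩)) = g
      rw [Equiv.apply_symm_apply]
      show (ph T ^ (X ε h y₀ g / H)) ((ph T ^ (-(X ε h y₀ g / H))) g) = g
      rw [← ph_add, add_neg_cancel, zpow_zero]
      rfl
  let E : ℤ × Fin n ≃ Γ := Equiv.ofBijective v hbij
  have hE : ∀ p, E p = v p := fun p => rfl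
  let G : SimpleGraph (ℤ × Fin n) := (cay S).comap E
  have hG : ∀ p q, G.Adj p q ↔ (v p)⁻¹ * v q ∈ S := by
    intro p q
    show (cay S).Adj (v p) (v q) ↔ _
    rw [cay_adj hS]
  have hvadd : ∀ x y j, v (x + y, j) = (ph T ^ x) (v (y, j)) := by
    intro x y j
    exact ph_add T x y _
  obtain ⟨c, hc⟩ := period D T n hKn
  refine ⟨n, 2 * (n ! * Nat.card (K D)), G, ?_, ?_, ⟨(SimpleGraph.Iso.comap E (cay S)).symm⟩⟩
  · exact Nat.mul_le_mul_left 2 (Nat.mul_le_mul_left _ (hKn.trans (Nat.le_mul_self n)))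
  refine ⟨hn, by positivity, ?_, ?_, ?_, ?_, ?_⟩
  · -- step
    intro x j
    rw [hG, add_comm, hvadd, zpow_one, ph_apply]
    rw [inv_mul_cancel_left]
    exact T.mem _
  · -- near
    intro x y i j hxy
    rw [hG] at hxy
    have h1 := T.max (v (x, i)) _ hxy
    rw [mul_inv_cancel_left] at h1
    have hx := hXv (x, i)
    have hy := hXv (y, j)
    simp only at hx hy
    have a1 := Int.emod_add_mul_ediv (X ε h y₀ (v (x, i))) H
    have a2 := Int.emod_add_mul_ediv (X ε h y₀ (v (y, j))) H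
    have b1 := Int.emod_nonneg (X ε h y₀ (v (x, i))) T.pos.ne'
    have b2 := Int.emod_lt_of_pos (X ε h y₀ (v (x, i))) T.pos
    have b3 := Int.emod_nonneg (X ε h y₀ (v (y, j))) T.pos.ne'
    have b4 := Int.emod_lt_of_pos (X ε h y₀ (v (y, j))) T.pos
    rw [hx] at a1
    rw [hy] at a2
    rw [abs_le] at h1 ⊢
    constructor
    · have : H * y < H * (x + 2) := by linarith
      have := lt_of_mul_lt_mul_left this T.pos.le
      omega
    · have : H * x < H * (y + 2) := by linarith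
      have := lt_of_mul_lt_mul_left this T.pos.le
      omega
  · -- per
    intro x y i j
    have h1 : ∀ x i, v (x + ((2 * (n ! * Nat.card (K D)) : ℕ) : ℤ), i) = c * v (x, i) := by
      intro x i
      rw [add_comm, hvadd, hc]
    rw [hG, hG, h1, h1]
    have h2 : (c * v (x, i))⁻¹ * (c * v (y, j)) = (v (x, i))⁻¹ * v (y, j) := by group
    rw [h2]
  · -- conn
    refine ⟨⟨(0, ⟨0, hn⟩), trivial⟩, ?_⟩
    intro A _ hA hcl p _
    obtain ⟨q, hq⟩ := hA
    have key : ∀ x ∈ Subgroup.closure S, ∀ p ∈ A, ∀ q, v q = v p * x → q ∈ A := by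
      intro x hx
      induction hx using Subgroup.closure_induction_right with
      | one =>
        intro p hp q hpq
        rw [mul_one] at hpq
        rw [hbij.1 hpq]
        exact hp
      | mul_right x _ s hs ih =>
        intro p hp q hpq
        obtain ⟨r, hr⟩ := hbij.2 (v p * x)
        have hrA := ih p hp r hr
        refine hcl r hrA q trivial ((hG _ _).2 ?_)
        rw [hpq, hr]
        have : (v p * x)⁻¹ * (v p * (x * s)) = s := by group
        rw [this]
        exact hs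
      | mul_inv_cancel x _ s hs ih =>
        intro p hp q hpq
        obtain ⟨r, hr⟩ := hbij.2 (v p * x)
        have hrA := ih p hp r hr
        refine hcl r hrA q trivial ((hG _ _).2 ?_)
        rw [hpq, hr]
        have : (v p * x)⁻¹ * (v p * (x * s⁻¹)) = s⁻¹ := by group
        rw [this]
        exact hS.2.1 _ hs
    exact key ((v q)⁻¹ * v p) (by rw [hS.1]; trivial) q hq p (by group)
  · -- trans
    intro i j
    obtain ⟨x, e, hx, k, hk⟩ := ok_trans T (v (0, i)) (v (0, j))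
    have hdec : ∀ l : Fin n, ∃ q : ℤ × Fin n, v q = x * v (0, l) := fun l => hbij.2 _
    choose Q hQ using hdec
    have hv0 : ∀ y l, v (y, l) = (ph T ^ y) (v (0, l)) := by
      intro y l
      rw [← hvadd, add_zero]
    have hmul : ∀ y l, x * v (y, l) = v (e * y + (Q l).1, (Q l).2) := by
      intro y l
      rw [hv0, hx.zpow, ← hQ, hvadd]
    have he : e * e = 1 := by rcases hx.1 with rfl | rfl <;> rfl
    have hinj : Function.Injective fun l => (Q l).2 := by
      intro l l' hll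
      simp only at hll
      have h1 : x * v (e * ((Q l').1 - (Q l).1), l) = x * v (0, l') := by
        rw [hmul, hmul, hll]
        congr 2
        rw [← mul_assoc, he]
        ring
      have h2 := hbij.1 (mul_left_cancel h1)
      exact (Prod.mk.inj h2).2
    let τ : Equiv.Perm (Fin n) := Equiv.ofBijective _ (Finite.injective_iff_bijective.1 hinj)
    have hτ : ∀ l, τ l = (Q l).2 := fun l => rfl
    let F : ℤ × Fin n ≃ ℤ × Fin n := (E.trans (Equiv.mulLeft x)).trans E.symm
    have hF : ∀ p, v (F p) = x * v p := by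
      intro p
      show E (E.symm (x * E p)) = x * E p
      rw [Equiv.apply_symm_apply]
    refine ⟨⟨F, ?_⟩, τ, e, fun l => (Q l).1, hx.1, ?_, ?_⟩
    · intro p q
      rw [hG, hG, hF, hF]
      have h2 : (x * v p)⁻¹ * (x * v q) = (v p)⁻¹ * v q := by group
      rw [h2]
    · rw [hτ]
      have h1 : v (Q i) = v (k, j) := by rw [hQ, hk, ← hvadd, add_zero]
      rw [hbij.1 h1]
    · intro y l
      apply hbij.1
      show v (F (y, l)) = _
      rw [hF, hmul, hτ]

end Pool.Agent.Helper34.NW
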